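import Mathlib
import Pool.Agent.W663.SX.Stm

/-!
Project SX (helper663): norming states.
-/

set_option autoImplicit false
open scoped Matrix.Norms.L2Operator Matrix ComplexOrder

namespace Pool.Agent.W701.SX

open Pool.Agent.W663.SX

variable {A : Type} [CStarAlgebra A]

/-- a unital contractive functional is real on selfadjoint elements -/
theorem im_zero (f : StrongDual ℂ A) (h1 : f 1 = 1) (hf : ‖f‖ ≤ 1) (z : A) (hz : IsSelfAdjoint z) :
    (f z).im = 0 := by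
  have key : ∀ t : ℝ, ((f z).im + t) ^ 2 ≤ ‖z‖ ^ 2 + t ^ 2 := by
    intro t
    set w : A := z + ((t : ℂ) * Complex.I) • (1 : A) with hw
    have e1 : star w * w = z * z + ((t : ℂ) ^ 2) • (1 : A) := by
      rw [hw, star_add, star_smul, star_one, hz.star_eq]
      obtain ⟨c, hc⟩ : ∃ c : ℂ, c = (t : ℂ) * Complex.I := ⟨_, rfl⟩
      have h1 : star c = -c := by rw [hc]; simp
      have h2 : (t : ℂ) ^ 2 = -(c * c) := by
        rw [hc]
        linear_combination (t : ℂ) ^ 2 * Complex.I_sq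
      rw [← hc, h1, h2]
      simp only [add_mul, mul_add, smul_mul_assoc, mul_smul_comm, one_mul, mul_one]
      module
    have n1 : ‖w‖ ^ 2 ≤ ‖z‖ ^ 2 + t ^ 2 := by
      have h2 : ‖star w * w‖ = ‖w‖ * ‖w‖ := CStarRing.norm_star_mul_self
      rw [sq ‖w‖, ← h2, e1]
      refine (norm_add_le _ _).trans ?_
      have h3 : ‖z * z‖ ≤ ‖z‖ ^ 2 := by rw [sq]; exact norm_mul_le _ _
      have h4 : ‖((t : ℂ) ^ 2) • (1 : A)‖ ≤ t ^ 2 := by
        rw [norm_smul]
        have h5 : ‖((t : ℂ) ^ 2)‖ = t ^ 2 := by rw [norm_pow, Complex.norm_real, Real.norm_eq_abs, sq_abs]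
        rw [h5]
        have h6 : ‖(1 : A)‖ ≤ 1 := by
          cases subsingleton_or_nontrivial A
          · rw [Subsingleton.elim (1 : A) 0, norm_zero]; exact zero_le_one
          · rw [CStarRing.norm_one]
        calc t ^ 2 * ‖(1 : A)‖ ≤ t ^ 2 * 1 := by gcongr
          _ = t ^ 2 := mul_one _
      linarith
    have n2 : ‖f w‖ ≤ ‖w‖ := (f.le_opNorm w).trans (by
      calc ‖f‖ * ‖w‖ ≤ 1 * ‖w‖ := by gcongr
        _ = ‖w‖ := one_mul _)
    have n3 : f w = f z + (t : ℂ) * Complex.I := by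
      rw [hw, map_add, map_smul, h1]; simp
    have n4 : ((f z).im + t) ^ 2 ≤ ‖f w‖ ^ 2 := by
      rw [← Complex.normSq_eq_norm_sq, Complex.normSq_apply, n3]
      simp
      nlinarith [mul_self_nonneg (f z).re]
    calc ((f z).im + t) ^ 2 ≤ ‖f w‖ ^ 2 := n4
      _ ≤ ‖w‖ ^ 2 := by gcongr
      _ ≤ _ := n1
  by_contra hne
  have h2 := key ((‖z‖ ^ 2 + 1) / (2 * (f z).im))
  have h3 : ((f z).im + (‖z‖ ^ 2 + 1) / (2 * (f z).im)) ^ 2
      = (f z).im ^ 2 + (‖z‖ ^ 2 + 1) + ((‖z‖ ^ 2 + 1) / (2 * (f z).im)) ^ 2 := by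
    field_simp
    ring
  rw [h3] at h2
  have h4 : 0 ≤ (f z).im ^ 2 := sq_nonneg _
  linarith

/-- a unital contractive functional is positive -/
theorem re_nonneg (f : StrongDual ℂ A) (h1 : f 1 = 1) (hf : ‖f‖ ≤ 1) (x : A) :
    0 ≤ (f (star x * x)).re := by
  letI := CStarAlgebra.spectralOrder A
  haveI := CStarAlgebra.spectralOrderedRing A
  set z := star x * x with hz
  have hz0 : 0 ≤ z := star_mul_self_nonneg x
  have hle : z ≤ algebraMap ℝ A ‖z‖ := (CStarAlgebra.norm_le_iff_le_algebraMap z (norm_nonneg z) hz0).mp le_rfl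
  have h2 : ‖algebraMap ℝ A ‖z‖ - z‖ ≤ ‖z‖ := by
    rw [CStarAlgebra.norm_le_iff_le_algebraMap _ (norm_nonneg z) (sub_nonneg.mpr hle)]
    exact sub_le_self _ hz0
  have h3 : f (algebraMap ℝ A ‖z‖ - z) = (‖z‖ : ℂ) - f z := by
    rw [map_sub]
    congr 1
    have : algebraMap ℝ A ‖z‖ = (‖z‖ : ℂ) • (1 : A) := by
      rw [Algebra.algebraMap_eq_smul_one]; rfl
    rw [this, map_smul, h1, smul_eq_mul, mul_one]
  have h4 : ‖f (algebraMap ℝ A ‖z‖ - z)‖ ≤ ‖z‖ := (f.le_opNorm _).trans (by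
    calc ‖f‖ * ‖algebraMap ℝ A ‖z‖ - z‖ ≤ 1 * ‖z‖ := by gcongr
      _ = ‖z‖ := one_mul _)
  rw [h3] at h4
  have h5 := (Complex.re_le_norm _).trans h4
  simp at h5
  exact h5

theorem t : S_NS := by
  intro A _ _ x
  letI := CStarAlgebra.spectralOrder A
  haveI := CStarAlgebra.spectralOrderedRing A
  set y : A := star x * x with hy
  have hy0 : 0 ≤ y := star_mul_self_nonneg x
  have hys : IsSelfAdjoint y := IsSelfAdjoint.star_mul_self x
  haveI : IsStarNormal y := hys.isStarNormal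
  have hsp : (‖y‖ : ℝ) ∈ spectrum ℝ y := CStarAlgebra.norm_mem_spectrum_of_nonneg hy0
  have hsp' : ((‖y‖ : ℝ) : ℂ) ∈ spectrum ℂ y := (spectrum.algebraMap_mem_iff ℂ).mpr hsp
  obtain ⟨χ, hχ⟩ := (StarAlgebra.elemental.bijective_characterSpaceToSpectrum y).2 ⟨_, hsp'⟩
  have hχ' : χ ⟨y, StarAlgebra.elemental.self_mem ℂ y⟩ = ((‖y‖ : ℝ) : ℂ) := by
    have := congrArg Subtype.val hχ
    simpa using this
  -- the functional on the subspace
  obtain ⟨p, hp⟩ : ∃ p : Subspace ℂ A, p = (StarAlgebra.elemental ℂ y).toSubalgebra.toSubmodule := ⟨_, rfl⟩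
  let g : StrongDual ℂ (StarAlgebra.elemental ℂ y).toSubalgebra.toSubmodule :=
    LinearMap.mkContinuous
      { toFun := fun b => χ (⟨b.1, b.2⟩ : StarAlgebra.elemental ℂ y)
        map_add' := fun a b => map_add χ (⟨a.1, a.2⟩ : StarAlgebra.elemental ℂ y) ⟨b.1, b.2⟩
        map_smul' := fun c b => map_smul χ c (⟨b.1, b.2⟩ : StarAlgebra.elemental ℂ y) } 1
      (fun b => by
        have := AlgHom.norm_apply_le_self χ (⟨b.1, b.2⟩ : StarAlgebra.elemental ℂ y)
        rw [one_mul]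
        exact this)
  have hg : ‖g‖ ≤ 1 := LinearMap.mkContinuous_norm_le _ zero_le_one _
  obtain ⟨f, hf1, hf2⟩ := exists_extension_norm_eq _ g
  have hfn : ‖f‖ ≤ 1 := hf2 ▸ hg
  have hone : f 1 = 1 := by
    have h1 : (1 : A) ∈ (StarAlgebra.elemental ℂ y).toSubalgebra.toSubmodule := one_mem (StarAlgebra.elemental ℂ y)
    have := hf1 ⟨1, h1⟩
    rw [show f 1 = g ⟨1, h1⟩ from this]
    exact map_one χ
  have hfy : f y = ((‖y‖ : ℝ) : ℂ) := by
    have := hf1 ⟨y, StarAlgebra.elemental.self_mem ℂ y⟩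
    rw [show f y = g ⟨y, StarAlgebra.elemental.self_mem ℂ y⟩ from this]
    exact hχ'
  refine ⟨f.toLinearMap, ⟨hone, fun w => re_nonneg f hone hfn w, fun w =>
    im_zero f hone hfn _ (IsSelfAdjoint.star_mul_self w)⟩, ?_⟩
  change (f y).re = ‖x‖ ^ 2
  rw [hfy, Complex.ofReal_re, hy, CStarRing.norm_star_mul_self, sq]

end Pool.Agent.W701.SX
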